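import Pool.Agent.K3h83.IN.Stm5
import Pool.Agent.R663.KRB.Kdim

/-!
# Sylow subgroups of order `p`: assembly
-/

set_option autoImplicit false
set_option linter.unusedSectionVars false
set_option linter.style.haveILetI false

open scoped BigOperators Classical

noncomputable section

namespace Pool.Agent.K3h83.IN

open Pool.Agent.Helper884 Pool.Agent.K3h3.KB Pool.Agent.K3h3.MK
open Pool.Agent.H254R3.IN (IsIrr mem_Irr RF red)
open IC (Irr)

section

variable {p : ℕ} [hp : Fact p.Prime]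

theorem card_irr (G : Type) [Group G] [Fintype G] : (Irr G).card = Nat.card (ConjClasses G) := by
  haveI := Fintype.ofFinite (ConjClasses G)
  have h := Pool.Agent.R663.KRB.card_irr_eq (J := G)
  rw [Nat.card_eq_fintype_card, ← Fintype.card_coe (Irr G)]
  exact (by convert h.symm)

theorem card_split (G : Type) [Group G] [Finite G] :
    Nat.card {c : ConjClasses G // ∃ g, ConjClasses.mk g = c ∧ ¬ p ∣ orderOf g} +
      Nat.card {c : ConjClasses G // ∃ g, ConjClasses.mk g = c ∧ p ∣ orderOf g} =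
      Nat.card (ConjClasses G) := by
  have h1 : ∀ c : ConjClasses G, (∃ g, ConjClasses.mk g = c ∧ p ∣ orderOf g) ↔
      ¬ ∃ g, ConjClasses.mk g = c ∧ ¬ p ∣ orderOf g := by
    intro c
    constructor
    · rintro ⟨g, rfl, h1⟩ ⟨g', h2, h3⟩
      apply h3
      rw [ConjClasses.mk_eq_mk_iff_isConj] at h2
      obtain ⟨c, hc⟩ := isConj_iff.mp h2
      rw [← hc] at h1
      have : orderOf (c * g' * c⁻¹) = orderOf g' := by
        have := orderOf_injective (MulAut.conj c).toMonoidHom (MulAut.conj c).injective g'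
        simpa using this
      rwa [this] at h1
    · intro h
      obtain ⟨g, rfl⟩ := ConjClasses.mk_surjective c
      refine ⟨g, rfl, ?_⟩
      by_contra h2
      exact h ⟨g, rfl, h2⟩
  rw [Nat.card_congr (Equiv.subtypeEquivRight h1)]
  haveI := Fintype.ofFinite (ConjClasses G)
  rw [Nat.card_eq_fintype_card, Nat.card_eq_fintype_card, Nat.card_eq_fintype_card,
    Fintype.card_subtype_compl]
  have := Fintype.card_subtype_le (fun c : ConjClasses G => ∃ g, ConjClasses.mk g = c ∧ ¬ p ∣ orderOf g)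
  omega

/-- the data of the computation in `X ∈ {G, N_G(P)}` -/
theorem core (h2 : N3) (h4 : N4) (h5 : N5) (h6 : N6) (h7 : N7) (h8 : N8) (h9 : N9)
    (A : Type) [Group A] [Finite A] (P H : Subgroup A) [P.Normal] [Fintype H] (hld : LD p P H) :
    ∃ S : RR p, ∀ (X : Type) [Group X] [Finite X] (ι : A →* X), EM p P ι →
      Nat.card {χ : X → ℂ // IsIrr χ ∧ (ndeg χ : ZMod p) = 0} +
        Nat.card (ConjClasses (A ⧸ P)) ≤
        Nat.card {c : ConjClasses X // ∃ g, ConjClasses.mk g = c ∧ ¬ p ∣ orderOf g} →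
      (Nat.card A : RR p) * wt (cl p) X = S := by
  choose! e f he hf hd using fun (φ : H → ℂ) (hφ : IsIrr φ) => h5 p A P H hld φ hφ
  have hA : 0 < Nat.card A := Nat.card_pos
  have hH : 0 < Nat.card H := Nat.card_pos
  have hpH : 0 < p * Nat.card H := Nat.mul_pos hp.out.pos hH
  have hs : ∀ φ : H → ℂ, 0 < stb H φ := by
    intro φ
    haveI : Nonempty {a : A // fixes H.subtype φ a} := ⟨1, fun l l' h => by
      rw [one_mul, inv_one, mul_one] at h
      rw [Subtype.ext h]⟩
    exact Nat.card_pos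
  have he0 : ∀ φ, IsIrr φ → 0 < e φ := by
    intro φ hφ
    have h1 := he φ hφ
    have h2 := hs φ
    rw [h1] at h2
    exact Nat.pos_of_mul_pos_right h2 |> fun h => h
  -- the sum of `stb * e`
  have hse : ∑ φ ∈ Irr H, stb H φ * e φ = Nat.card A * Nat.card (ConjClasses (A ⧸ P)) := by
    have h1 := h8 p A P H hld
    have h2 : ∑ φ ∈ Irr H, stb H φ ^ 2 = (∑ φ ∈ Irr H, stb H φ * e φ) * (p * Nat.card H) := by
      rw [Finset.sum_mul]
      refine Finset.sum_congr rfl fun φ hφ => ?_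
      conv_lhs => rw [pow_two]; enter [2]; rw [he φ (mem_Irr.mp hφ)]
      ring
    rw [h2] at h1
    exact (Nat.eq_of_mul_eq_mul_right hpH h1).symm
  have hsf : ∑ φ ∈ Irr H, stb H φ * f φ = (p - 1) * (p * Nat.card H) * Nat.card (ConjClasses H) := by
    rw [← card_irr H]
    have h1 : ∀ φ ∈ Irr H, stb H φ * f φ = (p - 1) * (p * Nat.card H) := by
      intro φ hφ
      have h2 := hf φ (mem_Irr.mp hφ)
      have h3 : e φ * f φ = p - 1 := by omega
      rw [he φ (mem_Irr.mp hφ), ← h3]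
      ring
    rw [Finset.sum_congr rfl h1, Finset.sum_const, smul_eq_mul, mul_comm]
  refine ⟨∑ φ ∈ Irr H, (stb H φ : RR p) * (cl p (Nat.card A / stb H φ * ndeg φ) *
    ((e φ : RR p) + (f φ : RR p) * cl p (e φ))), fun X _ _ ι hem hM => ?_⟩
  haveI := Fintype.ofFinite X
  -- the number of characters
  have hbound : ∀ φ ∈ Irr H, ((Irr X).filter fun χ => ¬ p ∣ aN H ι χ φ).card ≤ e φ + f φ ∧
      (((Irr X).filter fun χ => ¬ p ∣ aN H ι χ φ).card = e φ + f φ →
        ∑ χ ∈ (Irr X).filter (fun χ => ¬ p ∣ aN H ι χ φ), cl p (aN H ι χ φ) =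
          (e φ : RR p) + (f φ : RR p) * cl p (e φ)) := by
    intro φ hφ
    obtain ⟨u, hu1, hu2⟩ := h4 p A X P H ι hld hem φ (mem_Irr.mp hφ) (e φ) (f φ)
      (he φ (mem_Irr.mp hφ)) (hf φ (mem_Irr.mp hφ))
    exact h6 p (X → ℂ) (Irr X) (e φ) (f φ) (hf φ (mem_Irr.mp hφ)) u (fun χ => aN H ι χ φ) hu1 hu2
  have hne : ∀ χ ∈ Irr X, ∀ φ ∈ Irr H, ¬ p ∣ aN H ι χ φ → (ndeg χ : ZMod p) ≠ 0 := by
    intro χ hχ φ hφ h hz
    exact h ((h2 p A X P H ι hld hem χ (mem_Irr.mp hχ)).2.1 hz φ (mem_Irr.mp hφ))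
  have hcount : Nat.card A * ((Irr X).filter fun χ => (ndeg χ : ZMod p) ≠ 0).card =
      ∑ φ ∈ Irr H, stb H φ * ((Irr X).filter fun χ => ¬ p ∣ aN H ι χ φ).card := by
    have h1 : ∀ φ ∈ Irr H, stb H φ * ((Irr X).filter fun χ => ¬ p ∣ aN H ι χ φ).card =
        ∑ χ ∈ (Irr X).filter (fun χ => (ndeg χ : ZMod p) ≠ 0),
          if ¬ p ∣ aN H ι χ φ then stb H φ else 0 := by
      intro φ hφ
      rw [← Finset.sum_filter, Finset.sum_const, smul_eq_mul, mul_comm, Finset.filter_filter]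
      congr 2
      ext χ
      simp only [Finset.mem_filter]
      constructor
      · rintro ⟨h1, h2⟩
        exact ⟨h1, hne χ h1 φ hφ h2, h2⟩
      · rintro ⟨h1, h2, h3⟩
        exact ⟨h1, h3⟩
    rw [Finset.sum_congr rfl h1, Finset.sum_comm]
    have h3 : ∀ χ ∈ (Irr X).filter (fun χ => (ndeg χ : ZMod p) ≠ 0),
        ∑ φ ∈ Irr H, (if ¬ p ∣ aN H ι χ φ then stb H φ else 0) = Nat.card A := by
      intro χ hχ
      rw [Finset.mem_filter] at hχ
      rw [← Finset.sum_filter]
      exact h9 p A X P H ι hld hem χ (mem_Irr.mp hχ.1) hχ.2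
    rw [Finset.sum_congr rfl h3, Finset.sum_const, smul_eq_mul, mul_comm]
  have hlow : Nat.card (ConjClasses (A ⧸ P)) +
      Nat.card {c : ConjClasses X // ∃ g, ConjClasses.mk g = c ∧ p ∣ orderOf g} ≤
      ((Irr X).filter fun χ => (ndeg χ : ZMod p) ≠ 0).card := by
    have h1 := card_split (p := p) X
    have h3 := card_irr X
    have h10 := Finset.card_filter_add_card_filter_not (s := Irr X)
      (fun χ => (ndeg χ : ZMod p) = 0)
    have h11 : Nat.card {χ : X → ℂ // IsIrr χ ∧ (ndeg χ : ZMod p) = 0} =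
        ((Irr X).filter fun χ => (ndeg χ : ZMod p) = 0).card := by
      rw [← Fintype.card_coe, ← Nat.card_eq_fintype_card]
      refine Nat.card_congr (Equiv.subtypeEquivRight fun χ => ?_)
      rw [Finset.mem_filter, mem_Irr]
    change _ ≤ ((Irr X).filter fun χ => ¬ (ndeg χ : ZMod p) = 0).card
    omega
  have hsum : ∑ φ ∈ Irr H, stb H φ * (e φ + f φ) = Nat.card A * (Nat.card (ConjClasses (A ⧸ P)) +
      Nat.card {c : ConjClasses X // ∃ g, ConjClasses.mk g = c ∧ p ∣ orderOf g}) := by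
    rw [mul_add, h7 p A X P H ι hld hem, ← hse, ← hsf, ← Finset.sum_add_distrib]
    exact Finset.sum_congr rfl fun φ _ => by rw [mul_add]
  have heq : ∀ φ ∈ Irr H, stb H φ * ((Irr X).filter fun χ => ¬ p ∣ aN H ι χ φ).card =
      stb H φ * (e φ + f φ) := by
    have h1 : ∑ φ ∈ Irr H, stb H φ * ((Irr X).filter fun χ => ¬ p ∣ aN H ι χ φ).card =
        ∑ φ ∈ Irr H, stb H φ * (e φ + f φ) := by
      refine le_antisymm (Finset.sum_le_sum fun φ hφ => Nat.mul_le_mul_left _ (hbound φ hφ).1) ?_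
      rw [← hcount, hsum]
      exact Nat.mul_le_mul_left _ hlow
    exact (Finset.sum_eq_sum_iff_of_le fun φ hφ => Nat.mul_le_mul_left _ (hbound φ hφ).1).mp h1
  have heq2 : ∀ φ ∈ Irr H, ((Irr X).filter fun χ => ¬ p ∣ aN H ι χ φ).card = e φ + f φ :=
    fun φ hφ => Nat.eq_of_mul_eq_mul_left (hs φ) (heq φ hφ)
  -- the sum
  rw [wt_eq, Finset.mul_sum]
  have h20 : ∀ χ ∈ Irr X, (Nat.card A : RR p) * cl p (ndeg χ) =
      ∑ φ ∈ Irr H, if ¬ p ∣ aN H ι χ φ then (stb H φ : RR p) *
        (cl p (Nat.card A / stb H φ * ndeg φ) * cl p (aN H ι χ φ)) else 0 := by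
    intro χ hχ
    by_cases hz : (ndeg χ : ZMod p) = 0
    · have h21 : cl p (ndeg χ) = 0 := by
        change cls p _ = 0
        unfold cls
        rw [dif_pos hz]
      rw [h21, mul_zero]
      symm
      refine Finset.sum_eq_zero fun φ hφ => ?_
      rw [if_neg]
      intro h
      exact hne χ hχ φ hφ h hz
    · have h21 := h9 p A X P H ι hld hem χ (mem_Irr.mp hχ) hz
      conv_lhs => rw [← h21, Finset.sum_filter]
      push_cast
      rw [Finset.sum_mul]
      refine Finset.sum_congr rfl fun φ hφ => ?_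
      by_cases h : ¬ p ∣ aN H ι χ φ
      · rw [if_pos h, if_pos h]
        congr 1
        rw [← map_mul]
        refine cl_congr p ?_
        rw [(h2 p A X P H ι hld hem χ (mem_Irr.mp hχ)).2.2 φ (mem_Irr.mp hφ) h]
        push_cast
        ring
      · rw [if_neg h, if_neg h, zero_mul]
  rw [Finset.sum_congr rfl h20, Finset.sum_comm]
  refine Finset.sum_congr rfl fun φ hφ => ?_
  rw [← Finset.sum_filter, ← Finset.mul_sum, ← Finset.mul_sum, (hbound φ hφ).2 (heq2 φ hφ)]

/-- the equality for Sylow subgroups of order `p` -/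
theorem t_NP (hM : M6) (h0 : N0) (h3 : N3) (h4 : N4) (h5 : N5) (h6 : N6) (h7 : N7) (h8 : N8)
    (h9 : N9) : NP := by
  intro p _ G _ _ P hP
  obtain ⟨H, hld, hem1, hem2⟩ := h0 p G P hP
  haveI := hld.nP
  haveI := Fintype.ofFinite H
  obtain ⟨S, hS⟩ := core h3 h4 h5 h6 h7 h8 h9 (NN P) _ H hld
  have e1 := hS G _ hem1 (hM p G P hP)
  have e2 := hS (NN P) _ hem2 (by
    let Q : Sylow p (NN P) := P.subtype (Subgroup.le_normalizer)
    have hQ : (Q : Subgroup (NN P)) = (P : Subgroup G).subgroupOf (NN P) := rfl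
    have hQc : Nat.card Q = p := hld.cP
    have h1 := hM p (NN P) Q hQc
    have hN : NN Q = ⊤ := by
      refine Subgroup.normalizer_eq_top_iff.mpr ?_
      exact hld.nP
    refine le_trans (Nat.add_le_add_left ?_ _) h1
    have hle : (Q : Subgroup (NN P)).subgroupOf (NN Q) ≤
        ((P : Subgroup G).subgroupOf (NN P)).comap (NN Q).subtype := fun x hx => hx
    have hsur : Function.Surjective (QuotientGroup.map _ _ (NN Q).subtype hle) := by
      intro y
      obtain ⟨a, rfl⟩ := QuotientGroup.mk_surjective y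
      exact ⟨QuotientGroup.mk ⟨a, by rw [hN]; trivial⟩, rfl⟩
    haveI : Finite (ConjClasses (NN Q ⧸ (Q : Subgroup (NN P)).subgroupOf (NN Q))) := inferInstance
    exact Nat.card_le_card_of_surjective _ (ConjClasses.map_surjective hsur))
  exact natCast_mul_inj p Nat.card_pos.ne' (e1.trans e2.symm)

end

end Pool.Agent.K3h83.IN
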