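import Pool.Agent.K3h83.IN.Stm5
import Pool.Agent.K3h83.IN.Asm

/-!
# Groups with a solvable normal subgroup of index not divisible by `p²`
-/

set_option autoImplicit false
set_option linter.unusedSectionVars false
set_option linter.style.haveILetI false

open scoped BigOperators Classical

noncomputable section

namespace Pool.Agent.K3h83.IN

open Pool.Agent.Helper884 Pool.Agent.K3h3.KB Pool.Agent.K3h3.MK
open Pool.Agent.H254R3.IN (IsIrr mem_Irr)
open IC (Irr)

/-- there is a solvable normal subgroup of index not divisible by `p²` -/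
def Sm (p : ℕ) (G : Type) [Group G] : Prop :=
  ∃ S : Subgroup G, S.Normal ∧ Group.IsSolvable S ∧ ¬ p ^ 2 ∣ S.index

theorem cls_Sm (p : ℕ) : Cls (Sm p) where
  iso := by
    rintro G H _ _ _ ⟨e⟩ ⟨S, hS, hsol, hi⟩
    haveI : Group.IsSolvable S := hsol
    refine ⟨S.map e.toMonoidHom, hS.map _ e.surjective, ?_, ?_⟩
    · exact Group.isSolvable_of_surjective (f := (e.toMonoidHom.subgroupMap S))
        (MonoidHom.subgroupMap_surjective _ _)
    · have h1 : (S.map e.toMonoidHom).index = S.index := S.index_map_equiv e
      rw [h1]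
      exact hi
  sub := by
    rintro G _ _ H ⟨S, hS, hsol, hi⟩
    haveI : Group.IsSolvable S := hsol
    refine ⟨S.subgroupOf H, inferInstance, ?_, ?_⟩
    · have h1 : Function.Injective ((H.subtype.comp (S.subgroupOf H).subtype).codRestrict S
          (fun x => x.2)) := by
        intro x y h
        have h2 := congrArg (fun z : S => (z : G)) h
        exact Subtype.ext (Subtype.ext h2)
      exact Group.isSolvable_of_isSolvable_injective h1
    · intro h
      exact hi (h.trans (Subgroup.relIndex_dvd_index_of_normal S H))
  quo := by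
    rintro G _ _ K _ ⟨S, hS, hsol, hi⟩
    haveI : Group.IsSolvable S := hsol
    refine ⟨S.map (QuotientGroup.mk' K), hS.map _ (QuotientGroup.mk'_surjective K), ?_, ?_⟩
    · exact Group.isSolvable_of_surjective (f := ((QuotientGroup.mk' K).subgroupMap S))
        (MonoidHom.subgroupMap_surjective _ _)
    · intro h
      exact hi (h.trans (S.index_map_dvd (QuotientGroup.mk'_surjective K)))
  ext := by
    rintro G _ _ K _ hK hcyc ⟨S, hS, hsol, hi⟩
    haveI : Group.IsSolvable S := hsol
    refine ⟨S.comap (QuotientGroup.mk' K), hS.comap _, ?_, ?_⟩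
    · let f : K →* (S.comap (QuotientGroup.mk' K)) := Subgroup.inclusion (fun x hx => by
        rw [Subgroup.mem_comap]
        have : (QuotientGroup.mk' K) x = 1 := (QuotientGroup.eq_one_iff x).mpr hx
        rw [this]
        exact S.one_mem)
      let g : (S.comap (QuotientGroup.mk' K)) →* S := (QuotientGroup.mk' K).subgroupComap S
      haveI : Group.IsSolvable K := by
        haveI : IsMulCommutative K := ⟨⟨fun a b => by
          have := Subgroup.mem_center_iff.mp (hK a.2) b
          exact Subtype.ext this.symm⟩⟩
        letI : CommGroup K := { (inferInstance : Group K) with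
          mul_comm := fun a b => by
            have := Subgroup.mem_center_iff.mp (hK a.2) b
            exact Subtype.ext this.symm }
        exact Group.isSolvable_of_comm mul_comm
      refine Group.isSolvable_of_ker_le_range f g ?_
      intro x hx
      rw [MonoidHom.mem_ker] at hx
      have h1 : (QuotientGroup.mk' K) (x : G) = 1 := congrArg (fun z : S => (z : G ⧸ K)) hx
      have h2 : (x : G) ∈ K := (QuotientGroup.eq_one_iff _).mp h1
      exact ⟨⟨x, h2⟩, Subtype.ext rfl⟩
    · rw [Subgroup.index_comap_of_surjective _ (QuotientGroup.mk'_surjective K)]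
      exact hi

section

variable {p : ℕ} [hp : Fact p.Prime]

theorem sylow_small {G : Type} [Group G] [Finite G] (hG : Sm p G) (P : Sylow p G) (hP : Red2 P) :
    Nat.card P = p := by
  obtain ⟨S, hS, hsol, hi⟩ := hG
  have h1 : S ≤ Subgroup.center G := hP.rad S hS hsol
  have h2 : ¬ p ∣ Nat.card S := fun h => hP.cop (h.trans (Subgroup.card_dvd_of_le h1))
  obtain ⟨n, hn⟩ := (IsPGroup.iff_card (p := p) (G := P)).mp P.isPGroup'
  have hn2 : n ≤ 1 := by
    by_contra hc
    apply hi
    have h3 : p ^ 2 ∣ Nat.card G := ((pow_dvd_pow p (by omega : 2 ≤ n)).trans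
      (hn ▸ dvd_rfl)).trans (Subgroup.card_subgroup_dvd_card (P : Subgroup G))
    rw [← S.card_mul_index] at h3
    exact (Nat.Coprime.pow_left 2 ((Nat.Prime.coprime_iff_not_dvd hp.out).mpr h2)).dvd_of_dvd_mul_left h3
  interval_cases n
  · exfalso
    apply hP.ne
    have h3 : (P : Subgroup G) = ⊥ := by
      rw [← Subgroup.card_eq_one]
      simpa using hn
    rw [eq_top_iff]
    intro g _
    change g ∈ Subgroup.normalizer ((P : Subgroup G) : Set G)
    rw [h3, Subgroup.mem_normalizer_iff]
    intro x
    change x ∈ (⊥ : Subgroup G) ↔ g * x * g⁻¹ ∈ (⊥ : Subgroup G)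
    rw [Subgroup.mem_bot, Subgroup.mem_bot]
    constructor
    · rintro rfl
      simp
    · intro h
      have := congrArg (fun y => g⁻¹ * y * g) h
      simpa [mul_assoc] using this
  · simpa using hn

/-- the equality for groups with a solvable normal subgroup of index not divisible by `p²` -/
theorem small (hNP : NP) (G : Type) [Group G] [Finite G] (hG : Sm p G) (P : Sylow p G) :
    wt (cl p) G = wt (cl p) (NN P) :=
  reduction (p := p) (cls_Sm p) (fun X _ _ hX Q hQ => hNP p X Q (sylow_small hX Q hQ)) G hG P

end

end Pool.Agent.K3h83.IN
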