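import Pool.Agent.K3h83.OP.NP
import Pool.Agent.K3h83.OP.Small
import Pool.Agent.K3h83.OP.Blk
import Pool.Agent.K3h83.OP.Vec
import Pool.Agent.K3h85.IN.M1
import Pool.Agent.K3h85.IN.M2
import Pool.Agent.K3h42.IN.M3
import Pool.Agent.K3h69.IN.M4
import Pool.Agent.K3h4.OP.M6
import Pool.Agent.K3h51.OP.N0
import Pool.Agent.K3h51.OP.N6
import Pool.Agent.K3h90.IN.Deg
import Pool.Agent.K3h99.OP.Sing

/-!
# All steps together
-/

set_option autoImplicit false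

noncomputable section

namespace Pool.Agent.K3h83.IN

theorem a_M6 : M6 :=
  K3h4.OP.t_M6 K3h85.IN.t_M1 K3h85.IN.t_M2 K3h42.IN.t_M3 K3h69.IN.t_M4 K3h4.OP.t_M5

theorem a_NP (h8 : N8) : NP :=
  t_NP a_M6 K3h51.OP.t_N0 (K3h90.IN.t_N3 OPB.t_N2) OPD.t_N4 K3h51.OP.t_N5 K3h51.OP.t_N6
    K3h99.OP.t_N7 h8 (K3h90.IN.t_N9 OPB.t_N2)

end Pool.Agent.K3h83.IN
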