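import Pool.Agent.K3h83.OP.Non
import Pool.Agent.K3h93.CY.C0
import Pool.Agent.K3h95.CY.C1C6
import Pool.Agent.K3h90.CY.C3a
import Pool.Agent.K3h99.CY.Ext
import Pool.Agent.K3h73.CY.C3
import Pool.Agent.K3h41.CY.C4
import Pool.Agent.K3h25.CY.D3
import Pool.Agent.K3h50.CY.D4
import Pool.Agent.K3h73.CY.C5
import Pool.Agent.K3h50.CY.E1
import Pool.Agent.K3h20.CY.E2
import Pool.Agent.K3h3.CY.E3
import Pool.Agent.K3h66.CY.E4
import Pool.Agent.K3h33.CY.AS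
import Pool.Agent.K3h85.IN.M1
import Pool.Agent.K3h85.IN.M2

/-!
# All steps of the cyclic case together
-/

set_option autoImplicit false

noncomputable section

namespace Pool.Agent.K3h83.IN

theorem a_E3 : E3 := K3h3.CY.t_E3 K3h20.CY.t_E2 K3h66.CY.t_E4

theorem a_D5 : D5 := by
  intro p _ F _ _ _ B X _ _ _ _ Q P H ι hL hE m ρ hρ n n' τ τ' hτ hτ' ho ho'
  exact a_E3 p F B Q P H hL _ _ _ (ρ.comp ι) τ τ' (K3h50.CY.t_E1 p F B X Q P H ι hL hE m ρ hρ) hτ hτ'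
    ho ho'

theorem a_C5 : C5 :=
  K3h73.CY.t_C5 K3h85.IN.t_M1 K3h85.IN.t_M2 K3h25.CY.t_D3 K3h50.CY.t_D4 a_D5 K3h50.CY.t_D6

theorem a_CN : CN :=
  K3h33.CY.t_CN K3h95.CY.t_C1 (K3h73.CY.t_C3 K3h90.CY.t_C3a K3h99.CY.t_C3b) K3h41.CY.t_C4 a_C5
    K3h95.CY.t_C6

theorem a_C0 : C0 := K3h93.CY.t_C0

end Pool.Agent.K3h83.IN
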