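import Pool.Agent.K3h83.IN.Stm6
import Pool.Agent.K3h83.IN.Asm

/-!
# Groups with a solvable normal subgroup such that the Sylow `p`-subgroups of the quotient are cyclic
-/

set_option autoImplicit false
set_option linter.unusedSectionVars false
set_option linter.style.haveILetI false

open scoped BigOperators Classical

noncomputable section

namespace Pool.Agent.K3h83.IN

open Pool.Agent.Helper884 Pool.Agent.K3h3.KB Pool.Agent.K3h3.MK
open Pool.Agent.H254R3.IN (IsIrr mem_Irr)
open IC (Irr)

theorem msn {G : Type} [Group G] {s t : Subgroup G} [ht : t.Normal] {x : G} :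
    x ∈ s ⊔ t ↔ ∃ y ∈ s, ∃ z ∈ t, y * z = x := Subgroup.mem_sup_of_normal_right

/-- there is a solvable normal subgroup `S` such that the `p`-subgroups of `G / S` are cyclic and
`p ^ (a + 1)` does not divide `|G / S|` -/
def Cy (p a : ℕ) (G : Type) [Group G] : Prop :=
  ∃ S : Subgroup G, S.Normal ∧ Group.IsSolvable S ∧ ¬ p ^ (a + 1) ∣ S.index ∧
    ∀ Q : Subgroup G, IsPGroup p Q → ∃ x ∈ Q, Q ≤ Subgroup.zpowers x ⊔ S

theorem cls_Cy (p a : ℕ) [hp : Fact p.Prime] : Cls (Cy p a) where
  iso := by
    rintro G H _ _ _ ⟨e⟩ ⟨S, hS, hsol, hi, hc⟩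
    haveI : Group.IsSolvable S := hsol
    refine ⟨S.map e.toMonoidHom, hS.map _ e.surjective, ?_, ?_, ?_⟩
    · exact Group.isSolvable_of_surjective (f := (e.toMonoidHom.subgroupMap S))
        (MonoidHom.subgroupMap_surjective _ _)
    · have h1 : (S.map e.toMonoidHom).index = S.index := S.index_map_equiv e
      rw [h1]
      exact hi
    · intro Q hQ
      obtain ⟨x, hx, h1⟩ := hc (Q.comap e.toMonoidHom)
        (hQ.comap_of_injective _ e.injective)
      haveI := hS
      haveI := hS.map e.toMonoidHom e.surjective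
      refine ⟨e x, hx, fun y hy => ?_⟩
      have h2 : e.symm y ∈ Q.comap e.toMonoidHom := by
        rw [Subgroup.mem_comap]
        simpa using hy
      have h3 := h1 h2
      rw [msn] at h3 ⊢
      obtain ⟨u, hu, s, hs, h4⟩ := h3
      obtain ⟨k, rfl⟩ := Subgroup.mem_zpowers_iff.mp hu
      refine ⟨(e x) ^ k, Subgroup.zpow_mem_zpowers _ _, e s, ⟨s, hs, rfl⟩, ?_⟩
      rw [← map_zpow, ← map_mul, h4, e.apply_symm_apply]
  sub := by
    rintro G _ _ H ⟨S, hS, hsol, hi, hc⟩
    haveI : Group.IsSolvable S := hsol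
    refine ⟨S.subgroupOf H, inferInstance, ?_, ?_, ?_⟩
    · have h1 : Function.Injective ((H.subtype.comp (S.subgroupOf H).subtype).codRestrict S
          (fun x => x.2)) := by
        intro x y h
        have h2 := congrArg (fun z : S => (z : G)) h
        exact Subtype.ext (Subtype.ext h2)
      exact Group.isSolvable_of_isSolvable_injective h1
    · intro h
      exact hi (h.trans (Subgroup.relIndex_dvd_index_of_normal S H))
    · intro Q hQ
      haveI := hS
      obtain ⟨x, ⟨x', hx', rfl⟩, h1⟩ := hc (Q.map H.subtype) (hQ.map _)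
      refine ⟨x', hx', fun y hy => ?_⟩
      have h3 := h1 (Subgroup.mem_map_of_mem H.subtype hy)
      rw [msn] at h3 ⊢
      obtain ⟨u, hu, s, hs, h4⟩ := h3
      obtain ⟨k, rfl⟩ := Subgroup.mem_zpowers_iff.mp hu
      refine ⟨x' ^ k, Subgroup.zpow_mem_zpowers _ _, (x' ^ k)⁻¹ * y, ?_, by group⟩
      rw [Subgroup.mem_subgroupOf]
      have h5 : (((x' ^ k)⁻¹ * y : H) : G) = s := by
        push_cast
        change ((x' : G) ^ k)⁻¹ * (y : G) = s
        change (x' : G) ^ k * s = (y : G) at h4
        rw [← h4]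
        group
      rw [h5]
      exact hs
  quo := by
    rintro G _ _ K _ ⟨S, hS, hsol, hi, hc⟩
    haveI : Group.IsSolvable S := hsol
    refine ⟨S.map (QuotientGroup.mk' K), hS.map _ (QuotientGroup.mk'_surjective K), ?_, ?_, ?_⟩
    · exact Group.isSolvable_of_surjective (f := ((QuotientGroup.mk' K).subgroupMap S))
        (MonoidHom.subgroupMap_surjective _ _)
    · intro h
      exact hi (h.trans (S.index_map_dvd (QuotientGroup.mk'_surjective K)))
    · intro Q hQ
      -- a Sylow subgroup of the preimage maps onto `Q`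
      let f : (Q.comap (QuotientGroup.mk' K)) →* Q := (QuotientGroup.mk' K).subgroupComap Q
      have hf : Function.Surjective f := by
        rintro ⟨y, hy⟩
        obtain ⟨g, rfl⟩ := QuotientGroup.mk'_surjective K y
        exact ⟨⟨g, hy⟩, rfl⟩
      obtain ⟨R⟩ : Nonempty (Sylow p (Q.comap (QuotientGroup.mk' K))) := inferInstance
      have hR : (R.mapSurjective hf : Subgroup Q) = ⊤ := by
        haveI := (Sylow.mapSurjective hf R)
        have h1 : IsPGroup p (⊤ : Subgroup Q) := hQ.of_equiv Subgroup.topEquiv.symm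
        exact ((Sylow.mapSurjective hf R).is_maximal' h1 le_top).symm
      haveI := hS
      haveI := hS.map (QuotientGroup.mk' K) (QuotientGroup.mk'_surjective K)
      obtain ⟨x, ⟨x', hx', rfl⟩, h1⟩ := hc ((R : Subgroup (Q.comap (QuotientGroup.mk' K))).map
        (Q.comap (QuotientGroup.mk' K)).subtype) (R.isPGroup'.map _)
      refine ⟨QuotientGroup.mk' K x', x'.2, fun y hy => ?_⟩
      have h2 : (⟨y, hy⟩ : Q) ∈ (R.mapSurjective hf : Subgroup Q) := by
        rw [hR]
        trivial
      obtain ⟨r, hr, h3⟩ := h2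
      have h4 : QuotientGroup.mk' K (r : G) = y := congrArg Subtype.val h3
      have h5 := h1 (Subgroup.mem_map_of_mem (Q.comap (QuotientGroup.mk' K)).subtype hr)
      rw [msn] at h5 ⊢
      obtain ⟨u, hu, s, hs, h6⟩ := h5
      obtain ⟨k, rfl⟩ := Subgroup.mem_zpowers_iff.mp hu
      refine ⟨(QuotientGroup.mk' K x') ^ k, Subgroup.zpow_mem_zpowers _ _,
        QuotientGroup.mk' K s, ⟨s, hs, rfl⟩, ?_⟩
      rw [← h4, ← map_zpow, ← map_mul]
      exact congrArg _ h6
  ext := by
    rintro G _ _ K _ hK hcyc ⟨S, hS, hsol, hi, hc⟩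
    haveI : Group.IsSolvable S := hsol
    refine ⟨S.comap (QuotientGroup.mk' K), hS.comap _, ?_, ?_, ?_⟩
    · let f : K →* (S.comap (QuotientGroup.mk' K)) := Subgroup.inclusion (fun x hx => by
        rw [Subgroup.mem_comap]
        have : (QuotientGroup.mk' K) x = 1 := (QuotientGroup.eq_one_iff x).mpr hx
        rw [this]
        exact S.one_mem)
      let g : (S.comap (QuotientGroup.mk' K)) →* S := (QuotientGroup.mk' K).subgroupComap S
      haveI : Group.IsSolvable K := Group.isSolvable_of_comm fun a b => by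
        have := Subgroup.mem_center_iff.mp (hK a.2) b
        exact Subtype.ext this.symm
      refine Group.isSolvable_of_ker_le_range f g ?_
      intro x hx
      rw [MonoidHom.mem_ker] at hx
      have h1 : (QuotientGroup.mk' K) (x : G) = 1 := congrArg (fun z : S => (z : G ⧸ K)) hx
      have h2 : (x : G) ∈ K := (QuotientGroup.eq_one_iff _).mp h1
      exact ⟨⟨x, h2⟩, Subtype.ext rfl⟩
    · rw [Subgroup.index_comap_of_surjective _ (QuotientGroup.mk'_surjective K)]
      exact hi
    · intro Q hQ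
      haveI := hS
      haveI := hS.comap (QuotientGroup.mk' K)
      obtain ⟨x, ⟨x', hx', rfl⟩, h1⟩ := hc (Q.map (QuotientGroup.mk' K)) (hQ.map _)
      refine ⟨x', hx', fun y hy => ?_⟩
      have h3 := h1 (Subgroup.mem_map_of_mem (QuotientGroup.mk' K) hy)
      rw [msn] at h3 ⊢
      obtain ⟨u, hu, s, hs, h4⟩ := h3
      obtain ⟨k, rfl⟩ := Subgroup.mem_zpowers_iff.mp hu
      refine ⟨x' ^ k, Subgroup.zpow_mem_zpowers _ _, (x' ^ k)⁻¹ * y, ?_, by group⟩
      rw [Subgroup.mem_comap, map_mul, map_inv, map_zpow, ← h4]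
      have h5 : ((QuotientGroup.mk' K x') ^ k)⁻¹ * ((QuotientGroup.mk' K x') ^ k * s) = s := by
        group
      rw [h5]
      exact hs

section

variable {p : ℕ} [hp : Fact p.Prime]

theorem sylow_Cy {a : ℕ} {G : Type} [Group G] [Finite G] (hG : Cy p a G) (P : Sylow p G)
    (hP : Red2 P) : IsCyclic P ∧ ¬ p ^ (a + 1) ∣ Nat.card G := by
  obtain ⟨S, hS, hsol, hi, hc⟩ := hG
  have h1 : S ≤ Subgroup.center G := hP.rad S hS hsol
  have h2 : ¬ p ∣ Nat.card S := fun h => hP.cop (h.trans (Subgroup.card_dvd_of_le h1))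
  constructor
  · haveI := hS
    obtain ⟨x, hx, h3⟩ := hc P P.isPGroup'
    refine ⟨⟨x, hx⟩, fun y => ?_⟩
    have h4 := h3 y.2
    rw [msn] at h4
    obtain ⟨u, hu, s, hs, h5⟩ := h4
    obtain ⟨k, rfl⟩ := Subgroup.mem_zpowers_iff.mp hu
    have h6 : s ∈ (P : Subgroup G) := by
      have : s = (x ^ k)⁻¹ * (y : G) := by rw [← h5]; group
      rw [this]
      exact (P : Subgroup G).mul_mem ((P : Subgroup G).inv_mem ((P : Subgroup G).zpow_mem hx k)) y.2
    have h7 : s = 1 := by
      obtain ⟨m, hm⟩ := P.isPGroup' ⟨s, h6⟩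
      have hm' : s ^ p ^ m = 1 := congrArg Subtype.val hm
      have h8 : orderOf s ∣ p ^ m := orderOf_dvd_of_pow_eq_one hm'
      have h9 : orderOf s ∣ Nat.card S := by
        have := orderOf_dvd_natCard (⟨s, hs⟩ : S)
        rwa [Subgroup.orderOf_mk] at this
      have h10 : Nat.Coprime (p ^ m) (Nat.card S) :=
        Nat.Coprime.pow_left m ((Nat.Prime.coprime_iff_not_dvd hp.out).mpr h2)
      exact orderOf_eq_one_iff.mp (Nat.eq_one_of_dvd_coprimes h10 h8 h9)
    refine ⟨k, ?_⟩
    apply Subtype.ext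
    rw [h7, mul_one] at h5
    exact h5
  · intro h
    apply hi
    rw [← S.card_mul_index] at h
    exact (Nat.Coprime.pow_left _ ((Nat.Prime.coprime_iff_not_dvd hp.out).mpr h2)).dvd_of_dvd_mul_left h

theorem NN_top_of_not_dvd {G : Type} [Group G] [Finite G] (P : Sylow p G) (h : ¬ p ∣ Nat.card G) :
    NN P = ⊤ := by
  have h3 : (P : Subgroup G) = ⊥ := by
    rw [← Subgroup.card_eq_one]
    obtain ⟨n, hn⟩ := (IsPGroup.iff_card (p := p) (G := P)).mp P.isPGroup'
    rcases Nat.eq_zero_or_pos n with rfl | h0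
    · simpa using hn
    · exact absurd (((dvd_pow_self p h0.ne').trans (hn ▸ dvd_rfl)).trans
        (Subgroup.card_subgroup_dvd_card (P : Subgroup G))) h
  rw [eq_top_iff]
  intro g _
  change g ∈ Subgroup.normalizer ((P : Subgroup G) : Set G)
  rw [h3, Subgroup.mem_normalizer_iff]
  intro x
  rw [Subgroup.mem_bot, Subgroup.mem_bot]
  constructor
  · rintro rfl
    simp
  · intro h
    have := congrArg (fun y => g⁻¹ * y * g) h
    simpa [mul_assoc] using this

/-- the normalizers in `G` and in a subgroup which contains it -/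
theorem wt_NN_sub {G : Type} [Group G] [Finite G] (P : Sylow p G) {T : Subgroup G}
    (h : NN P ≤ T) : wt (cl p) (NN (P.subtype ((Subgroup.le_normalizer : (P : Subgroup G) ≤ _).trans h))) =
      wt (cl p) (NN P) := by
  have hm := mem_NN_subtype P ((Subgroup.le_normalizer : (P : Subgroup G) ≤ _).trans h)
  refine wt_congr (cl p) ⟨⟨fun x => ⟨x.1.1, (hm x.1).mp x.2⟩,
    fun x => ⟨⟨x.1, h x.2⟩, (hm ⟨x.1, h x.2⟩).mpr x.2⟩, ?_, ?_⟩, ?_⟩
  · intro x
    rfl
  · intro x
    rfl
  · intro x y
    rfl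

/-- the equality for groups with a solvable normal subgroup `S` such that the Sylow `p`-subgroups of
`G / S` are cyclic -/
theorem cyc_main (h0 : C0) (hN : CN) : ∀ (a : ℕ) (G : Type) [Group G] [Finite G], Cy p a G →
    ∀ P : Sylow p G, wt (cl p) G = wt (cl p) (NN P) := by
  intro a
  induction a with
  | zero =>
    refine reduction (p := p) (cls_Cy p 0) fun G _ _ hG P hP => ?_
    exfalso
    have h1 := (sylow_Cy hG P hP).2
    rw [zero_add, pow_one] at h1
    exact hP.ne (NN_top_of_not_dvd P h1)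
  | succ a IH =>
    refine reduction (p := p) (cls_Cy p (a + 1)) fun G _ _ hG P hP => ?_
    obtain ⟨hcyc, hcard⟩ := sylow_Cy hG P hP
    have hdvd : p ∣ Nat.card G := by
      by_contra h
      exact hP.ne (NN_top_of_not_dvd P h)
    obtain ⟨Q, B, H, hPB, hQP, hB, hLC, hE1, hE2⟩ := h0 p G P hcyc hdvd
    rw [hN p B G _ _ H B.subtype hLC hE1, ← wt_NN_sub P hPB]
    haveI := hLC.nQ
    refine IH B ⟨Q.subgroupOf B, hLC.nQ, ?_, ?_, ?_⟩ _
    · have h1 : IsCyclic (Q.subgroupOf B) := isCyclic_of_prime_card hLC.cQ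
      exact Group.isSolvable_of_comm fun x y => by
        letI := h1.commGroup
        exact mul_comm x y
    · intro h
      apply hcard
      have h1 : Nat.card (Q.subgroupOf B) * (Q.subgroupOf B).index = Nat.card B :=
        Subgroup.card_mul_index _
      rw [hLC.cQ] at h1
      have h2 : p ^ (a + 1 + 1) ∣ Nat.card B := by
        rw [← h1, pow_succ, mul_comm]
        exact Nat.mul_dvd_mul_left p h
      exact h2.trans (Subgroup.card_subgroup_dvd_card B)
    · intro R hR
      have hR2 : IsPGroup p (R.map B.subtype) := hR.map _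
      obtain ⟨P', hP'⟩ := hR2.exists_le_sylow
      obtain ⟨g, hg⟩ := MulAction.exists_smul_eq G P P'
      have hc' : IsCyclic P' := by
        subst hg
        exact isCyclic_of_surjective (Sylow.equivSMul P g) (Sylow.equivSMul P g).surjective
      have hcR : IsCyclic (R.map B.subtype) := by
        have : Function.Injective (Subgroup.inclusion hP') := Subgroup.inclusion_injective hP'
        exact isCyclic_of_injective _ this
      obtain ⟨⟨x, hx⟩, hx2⟩ := hcR
      obtain ⟨x', hx', rfl⟩ := hx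
      refine ⟨x', hx', fun y hy => ?_⟩
      apply Subgroup.mem_sup_left
      obtain ⟨k, hk⟩ := hx2 ⟨(y : G), ⟨y, hy, rfl⟩⟩
      have hk' := congrArg Subtype.val hk
      rw [Subgroup.mem_zpowers_iff]
      exact ⟨k, Subtype.ext (by simpa using hk')⟩

end

end Pool.Agent.K3h83.IN
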