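import Pool.Agent.K3h83.OP.Asm
import Pool.Agent.K3h85.IN.N8

/-!
# Sylow subgroups of order `p`
-/

set_option autoImplicit false

noncomputable section

namespace Pool.Agent.K3h83.IN

theorem t_order_p : NP := a_NP K3h85.IN.t_N8'

end Pool.Agent.K3h83.IN
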