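import Pool.Agent.K3h83.OP.Cyc

/-!
# The reduction with noncyclic Sylow subgroups
-/

set_option autoImplicit false
set_option linter.unusedSectionVars false
set_option linter.style.haveILetI false

open scoped BigOperators Classical

noncomputable section

namespace Pool.Agent.K3h83.IN

open Pool.Agent.Helper884 Pool.Agent.K3h3.KB Pool.Agent.K3h3.MK
open Pool.Agent.H254R3.IN (IsIrr mem_Irr)
open IC (Irr)

section

variable {p : ℕ} [hp : Fact p.Prime]

theorem main3 (h1 : S1) (h2 : S2) (h3 : S3) (h4 : S4) (h4a : S4a) (h5 : S5a) (h6 : S6) (h7 : S7a)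
    (h8 : S8) (h9 : S9) (h12 : S12) (h14 : S14) (h15 : S15) (h16 : S16) (h17 : S17)
    (g1 : G1) (g2 : G2) (g3 : G3) (g4 : G4) (g5 : G5)
    {C : ∀ (G : Type) [Group G], Prop} (hC : Cls C)
    (hred : ∀ (G : Type) [Group G] [Finite G], C G → ∀ P : Sylow p G, Red2 P →
      (∀ (Y : Type) [Group Y] [Finite Y], C Y →
        (Subgroup.center Y).index < (Subgroup.center G).index → Q1 p Y) →
      wt (cl p) G = wt (cl p) (NN P)) :
    ∀ (G : Type) [Group G] [Finite G], C G → Q1 p G := by
  have key : ∀ a b : ℕ, ∀ (G : Type) [Group G] [Finite G], C G → (Subgroup.center G).index = a →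
      Nat.card G = b → Q1 p G := by
    intro a
    induction a using Nat.strong_induction_on with
    | _ a iha =>
    intro b
    induction b using Nat.strong_induction_on with
    | _ b ihb =>
    intro G _ _ hG ha hb P
    have HI1 : ∀ (Y : Type) [Group Y] [Finite Y], C Y → (Subgroup.center Y).index < a → Q1 p Y :=
      fun Y _ _ hY h => iha _ h _ Y hY rfl rfl
    have HI2 : ∀ (Y : Type) [Group Y] [Finite Y], C Y → (Subgroup.center Y).index ≤ a →
        Nat.card Y < b → Q1 p Y := by
      intro Y _ _ hY h h'
      rcases h.lt_or_eq with h | h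
      · exact HI1 Y hY h
      · exact ihb _ h' Y hY h rfl
    by_cases hN : NN P = ⊤
    · exact wt_top hN
    have HIq : ∀ (K : Subgroup G) [K.Normal], K ≤ Subgroup.center G → K ≠ ⊥ → Q1 p (G ⧸ K) := by
      intro K _ hK hne
      refine HI2 (G ⧸ K) (hC.quo G K hG) ?_ ?_
      · rw [← ha]
        exact center_index_quot K _ le_rfl
      · rw [← hb]
        have h : Nat.card (G ⧸ K) * Nat.card K = Nat.card G := Subgroup.index_mul_card K
        have hK1 : 1 < Nat.card K := by
          rw [Subgroup.one_lt_card_iff_ne_bot]; exact hne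
        have hq : 0 < Nat.card (G ⧸ K) := Nat.card_pos
        rw [← h]
        nlinarith
    by_cases hcyc : IsCyclic (Subgroup.center G)
    swap
    · exact D3m h4 h4a h5 P hcyc HIq
    by_cases hder : Subgroup.center G ≤ commutator G
    swap
    · exact byfaith h4 h4a h5 P HIq fun nu _ => twist h4 h5 h14 h17 hC P hG hder
        (fun Y _ _ hY hi hc => HI2 Y hY (ha ▸ hi) (hb ▸ hc)) nu
    by_cases hpc : p ∣ Nat.card (Subgroup.center G)
    · exact byfaith h4 h4a h5 P HIq fun nu hnu => pcenter h15 h16 P hder hpc nu hnu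
    by_cases hsup : ∀ N : Subgroup G, N.Normal → ¬ N ≤ Subgroup.center G → N ⊔ NN P = ⊤
    swap
    · push Not at hsup
      obtain ⟨N, hNn, hNc, hNs⟩ := hsup
      haveI := hNn
      set M : Subgroup G := N ⊔ Subgroup.center G with hM
      have hMn : M.Normal := inferInstance
      have hcM : Subgroup.center G < M := by
        refine lt_of_le_of_ne le_sup_right fun h => hNc ?_
        rw [h]
        exact le_sup_left
      have hMi : M.index < a := ha ▸ Subgroup.index_strictAnti hcM
      have hMN : M ⊔ NN P = N ⊔ NN P := by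
        rw [hM, sup_assoc, sup_eq_right.mpr (le_NN_of_center P (le_refl (Subgroup.center G)))]
      have hr : M.subtype.range = M := Subgroup.range_subtype M
      set X : Subgroup G := M ⊔ NN P with hX
      have hNX : NN P ≤ X := le_sup_right
      have hPX : (P : Subgroup G) ≤ X := Subgroup.le_normalizer.trans hNX
      have e1 := D1 (p := p) h1 h2 h6 h3 h4 h5 hC M.subtype M.subtype_injective (by rw [hr]; exact hMn)
        P hG (fun Y _ _ hY hidx => HI1 Y hY (lt_of_le_of_lt hidx (by rw [hr]; exact hMi))) X
        (by rw [hr])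
      have hZX : Subgroup.center G ≤ X := (le_of_lt hcM).trans le_sup_left
      have e2 : (Subgroup.center X).index < a := by
        have i1 : (Subgroup.center G).subgroupOf X ≤ Subgroup.center X := by
          intro x hx
          rw [Subgroup.mem_center_iff]
          intro y
          exact Subtype.ext (Subgroup.mem_center_iff.mp (Subgroup.mem_subgroupOf.mp hx) y)
        have i2 := Subgroup.index_antitone i1
        have i3 : (Subgroup.center G).relIndex X * X.index = (Subgroup.center G).index :=
          Subgroup.relIndex_mul_index hZX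
        have i4 : 1 < X.index := by
          have : X.index ≠ 1 := fun h => hNs (by rw [← hMN]; exact Subgroup.index_eq_one.mp h)
          have h0 : X.index ≠ 0 := Subgroup.FiniteIndex.index_ne_zero
          omega
        have i5 : 0 < (Subgroup.center G).relIndex X := by
          apply Nat.pos_of_ne_zero
          intro h
          rw [h, zero_mul] at i3
          exact (Subgroup.FiniteIndex.index_ne_zero (H := Subgroup.center G)) i3.symm
        have i6 : (Subgroup.center X).index ≤ (Subgroup.center G).relIndex X := i2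
        rw [← ha, ← i3]
        nlinarith
      rw [e1, HI1 X (hC.sub G X hG) e2 (P.subtype hPX)]
      exact wt_congr (cl p)
        { toFun := fun x => ⟨x.1.1, (mem_NN_subtype P hPX x.1).mp x.2⟩
          invFun := fun x => ⟨⟨x.1, hNX x.2⟩, (mem_NN_subtype P hPX ⟨x.1, hNX x.2⟩).mpr x.2⟩
          left_inv := fun _ => rfl
          right_inv := fun _ => rfl
          map_mul' := fun _ _ => rfl }
    by_cases hab : ∀ A : Subgroup G, A.Normal → (∀ a ∈ A, ∀ b ∈ A, a * b = b * a) →
        A ≤ Subgroup.center G
    swap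
    · push Not at hab
      obtain ⟨A, hA, hAab, hAc⟩ := hab
      obtain ⟨B, hB, hBA, hBc, hBp⟩ := h12 p G A hA hAab hAc
      rcases hBp with hBp | hBp
      · exfalso
        apply hN
        rw [← hsup B hB hBc]
        exact (sup_eq_right.mpr ((le_sylow P hB hBp).trans Subgroup.le_normalizer)).symm
      · exact D2 h2 h7 h8 P B hB (fun a ha b hb => hAab a (hBA ha) b (hBA hb)) hBp (hsup B hB hBc)
    by_cases hrad : ∀ N : Subgroup G, N.Normal → IsSolvable N → N ≤ Subgroup.center G
    swap
    · push Not at hrad
      obtain ⟨B, hB, hBs, hBc⟩ := hrad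
      exact byfaith h4 h4a h5 P HIq fun nu hnu => solv g1 g2 g3 g4 g5 P hN hpc hab hsup B hB hBs hBc
        nu hnu
    by_cases hmono : ∀ N₁ N₂ : Subgroup G, N₁.Normal → N₂.Normal →
        N₁ ⊓ N₂ ≤ Subgroup.center G → N₁ ≤ Subgroup.center G ∨ N₂ ≤ Subgroup.center G
    swap
    · push Not at hmono
      obtain ⟨N₁, N₂, hn1, hn2, hint, hc1, hc2⟩ := hmono
      exact absurd (h9 p G P N₁ N₂ hn1 hn2 hint (hsup N₁ hn1 hc1) (hsup N₂ hn2 hc2)) hN
    exact hred G hG P ⟨hcyc, hpc, hder, hN, hrad, hsup, hmono⟩
      fun Y _ _ hY h => HI1 Y hY (ha ▸ h)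
  exact fun G _ _ hG => key _ _ G hG rfl rfl

theorem index_center_lt {G : Type} [Group G] [Finite G] {X : Subgroup G}
    (hZX : Subgroup.center G ≤ X) (hX : X ≠ ⊤) :
    (Subgroup.center X).index < (Subgroup.center G).index := by
  have i1 : (Subgroup.center G).subgroupOf X ≤ Subgroup.center X := by
    intro x hx
    rw [Subgroup.mem_center_iff]
    intro y
    exact Subtype.ext (Subgroup.mem_center_iff.mp (Subgroup.mem_subgroupOf.mp hx) y)
  have i2 := Subgroup.index_antitone i1
  have i3 : (Subgroup.center G).relIndex X * X.index = (Subgroup.center G).index :=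
    Subgroup.relIndex_mul_index hZX
  have i4 : 1 < X.index := by
    have : X.index ≠ 1 := fun h => hX (Subgroup.index_eq_one.mp h)
    have h0 : X.index ≠ 0 := Subgroup.FiniteIndex.index_ne_zero
    omega
  have i5 : 0 < (Subgroup.center G).relIndex X := by
    apply Nat.pos_of_ne_zero
    intro h
    rw [h, zero_mul] at i3
    exact (Subgroup.FiniteIndex.index_ne_zero (H := Subgroup.center G)) i3.symm
  have i6 : (Subgroup.center X).index ≤ (Subgroup.center G).relIndex X := i2
  rw [← i3]
  nlinarith

/-- Q1 for all groups of the class follows from Q1 for the reduced pairs with noncyclic Sylow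
subgroups. -/
theorem reduction3 (h0 : C0) (hN : CN) {C : ∀ (G : Type) [Group G], Prop} (hC : Cls C)
    (hred : ∀ (G : Type) [Group G] [Finite G], C G → ∀ P : Sylow p G, Red2 P → ¬ IsCyclic P →
      wt (cl p) G = wt (cl p) (NN P)) :
    ∀ (G : Type) [Group G] [Finite G], C G → Q1 p G := by
  refine main3 a_S1 a_S2 a_S3 a_S4 a_S4a a_S5 a_S6 a_S7 a_S8 a_S9 a_S12 a_S14 a_S15 a_S16 a_S17
    a_G1 a_G2 a_G3 a_G4 a_G5 hC fun G _ _ hG P hP hI => ?_
  by_cases hc : IsCyclic P
  swap
  · exact hred G hG P hP hc
  have hdvd : p ∣ Nat.card G := by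
    by_contra h
    exact hP.ne (NN_top_of_not_dvd P h)
  obtain ⟨Q, B, H, hPB, hQP, hB, hLC, hE1, hE2⟩ := h0 p G P hc hdvd
  have hZB : Subgroup.center G ≤ B := (le_NN_of_center P le_rfl).trans hPB
  have hBt : B ≠ ⊤ := by
    intro h
    -- `Q` would be normal, so central
    have hQn : Q.Normal := by
      rw [← Subgroup.normalizer_eq_top_iff, ← hB, h]
    have hQc : Nat.card Q = p := by
      have h1 := hLC.cQ
      rw [← h1]
      refine Nat.card_congr (Subgroup.subgroupOfEquivOfLe ?_).toEquiv.symm
      exact hQP.trans (Subgroup.le_normalizer.trans hPB)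
    have hQs : IsSolvable Q := by
      have h1 : IsCyclic Q := isCyclic_of_prime_card hQc
      exact Group.isSolvable_of_comm fun x y => by
        letI := h1.commGroup
        exact mul_comm x y
    exact hP.cop (by
      have := Subgroup.card_dvd_of_le (hP.rad Q hQn hQs)
      rwa [hQc] at this)
  rw [hN p B G _ _ H B.subtype hLC hE1, ← wt_NN_sub P hPB]
  exact hI B (hC.sub G B hG) (index_center_lt hZB hBt) _

end

end Pool.Agent.K3h83.IN
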