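import Pool.Agent.K3h83.OP.AsmC

/-!
# Groups without sections of a certain type
-/

set_option autoImplicit false
set_option linter.unusedSectionVars false
set_option linter.style.haveILetI false

open scoped BigOperators Classical

noncomputable section

namespace Pool.Agent.K3h83.IN

open Pool.Agent.Helper884 Pool.Agent.K3h3.KB Pool.Agent.K3h3.MK
open Pool.Agent.H254R3.IN (IsIrr mem_Irr)
open IC (Irr)

/-- `Y` has a unique minimal normal subgroup `M`, `M` is not abelian, the Sylow `p`-subgroups of `Y` are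
not cyclic and `Y = M N_Y(Q)` for a Sylow `p`-subgroup `Q` of `Y` -/
def Bad (p : ℕ) (Y : Type) [Group Y] : Prop :=
  ∃ M : Subgroup Y, M.Normal ∧ (∀ L : Subgroup Y, L.Normal → L ≠ ⊥ → M ≤ L) ∧
    (∃ a ∈ M, ∃ b ∈ M, a * b ≠ b * a) ∧ ∃ Q : Sylow p Y, ¬ IsCyclic Q ∧ M ⊔ NN Q = ⊤

/-- no section of `G` is of this type -/
def Se (p : ℕ) (G : Type) [Group G] : Prop :=
  ∀ (Y : Type) [Group Y] (H : Subgroup G) (f : H →* Y), Function.Surjective f → ¬ Bad p Y

theorem Bad.center {p : ℕ} {Y : Type} [Group Y] (h : Bad p Y) : Subgroup.center Y = ⊥ := by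
  obtain ⟨M, hM, hmin, ⟨a, ha, b, hb, hab⟩, -⟩ := h
  by_contra hc
  apply hab
  have h1 := hmin _ inferInstance hc ha
  exact (Subgroup.mem_center_iff.mp h1 b).symm

theorem cls_Se (p : ℕ) : Cls (Se p) where
  iso := by
    rintro G G' _ _ _ ⟨e⟩ h Y _ H f hf
    refine h Y (H.comap e.toMonoidHom) (f.comp (e.toMonoidHom.subgroupComap H)) ?_
    refine hf.comp ?_
    rintro ⟨y, hy⟩
    exact ⟨⟨e.symm y, by simpa using hy⟩, Subtype.ext (e.apply_symm_apply y)⟩
  sub := by
    intro G _ _ X h Y _ H f hf
    have e : H ≃* H.map X.subtype := H.equivMapOfInjective X.subtype X.subtype_injective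
    exact h Y (H.map X.subtype) (f.comp e.symm.toMonoidHom) (hf.comp e.symm.surjective)
  quo := by
    intro G _ _ K _ h Y _ H f hf
    refine h Y (H.comap (QuotientGroup.mk' K)) (f.comp ((QuotientGroup.mk' K).subgroupComap H)) ?_
    refine hf.comp ?_
    rintro ⟨y, hy⟩
    obtain ⟨g, rfl⟩ := QuotientGroup.mk'_surjective K y
    exact ⟨⟨g, hy⟩, rfl⟩
  ext := by
    intro G _ _ K _ hK _ h Y _ H f hf hb
    have hs : Function.Surjective ((QuotientGroup.mk' K).subgroupMap H) :=
      MonoidHom.subgroupMap_surjective _ _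
    have hker : ((QuotientGroup.mk' K).subgroupMap H).ker ≤ f.ker := by
      intro x hx
      have h1 : QuotientGroup.mk' K (x : G) = 1 := congrArg Subtype.val hx
      have h2 : (x : G) ∈ Subgroup.center G := hK ((QuotientGroup.eq_one_iff _).mp h1)
      have h3 : f x ∈ Subgroup.center Y := by
        rw [Subgroup.mem_center_iff]
        intro y
        obtain ⟨z, rfl⟩ := hf y
        rw [← map_mul, ← map_mul]
        congr 1
        exact Subtype.ext (Subgroup.mem_center_iff.mp h2 z)
      rw [hb.center, Subgroup.mem_bot] at h3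
      exact h3
    refine h Y (H.map (QuotientGroup.mk' K)) (((QuotientGroup.mk' K).subgroupMap H).liftOfSurjective hs
      ⟨f, hker⟩) ?_ hb
    intro y
    obtain ⟨z, rfl⟩ := hf y
    exact ⟨_, MonoidHom.liftOfRightInverse_comp_apply _ _ _ ⟨f, hker⟩ z⟩

section

variable {p : ℕ} [hp : Fact p.Prime]

theorem bad_of_red {G : Type} [Group G] [Finite G] (P : Sylow p G) (hP : Red2 P)
    (hc : ¬ IsCyclic P) : Bad p (G ⧸ Subgroup.center G) := by
  -- a minimal normal subgroup modulo the center
  obtain ⟨L₀, ⟨hL₀, hL₀c⟩, hmin⟩ : ∃ L₀ : Subgroup G, (L₀.Normal ∧ ¬ L₀ ≤ Subgroup.center G) ∧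
      ∀ L : Subgroup G, L.Normal ∧ ¬ L ≤ Subgroup.center G → L ≤ L₀ → L₀ ≤ L := by
    have hfin : Set.Finite {L : Subgroup G | L.Normal ∧ ¬ L ≤ Subgroup.center G} := Set.toFinite _
    have htop : ¬ (⊤ : Subgroup G) ≤ Subgroup.center G := by
      intro h
      apply hP.ne
      rw [eq_top_iff]
      intro g _
      exact (le_NN_of_center P le_rfl) (h trivial)
    obtain ⟨L₀, hL₀⟩ := hfin.exists_minimal ⟨⊤, inferInstance, htop⟩
    exact ⟨L₀, hL₀.prop, fun L hL hle => hL₀.le_of_le hL hle⟩
  have hmono : ∀ L : Subgroup G, L.Normal → ¬ L ≤ Subgroup.center G → L₀ ≤ L := by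
    intro L hL hLc
    have h1 : ¬ L ⊓ L₀ ≤ Subgroup.center G := by
      intro h
      rcases hP.mono L L₀ hL hL₀ h with h | h
      · exact hLc h
      · exact hL₀c h
    haveI := hL
    haveI := hL₀
    exact (hmin _ ⟨inferInstance, h1⟩ inf_le_right).trans inf_le_left
  set π := QuotientGroup.mk' (Subgroup.center G) with hπ
  have hsur : Function.Surjective π := QuotientGroup.mk'_surjective _
  refine ⟨L₀.map π, hL₀.map _ hsur, ?_, ?_, ?_⟩
  · intro L hL hne
    have h1 : ¬ L.comap π ≤ Subgroup.center G := by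
      intro h
      apply hne
      rw [eq_bot_iff]
      intro y hy
      obtain ⟨g, rfl⟩ := hsur y
      rw [Subgroup.mem_bot]
      exact (QuotientGroup.eq_one_iff g).mpr (h hy)
    exact Subgroup.map_le_iff_le_comap.mpr (hmono _ (hL.comap _) h1)
  · by_contra hab
    push Not at hab
    apply hL₀c
    refine hP.rad L₀ hL₀ ?_
    haveI : Group.IsSolvable (L₀.map π) := Group.isSolvable_of_comm fun x y =>
      Subtype.ext (hab x x.2 y y.2)
    haveI : Group.IsSolvable (Subgroup.center G) := Group.isSolvable_of_comm fun x y =>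
      Subtype.ext (Subgroup.mem_center_iff.mp y.2 x)
    haveI : Group.IsSolvable (π.subgroupMap L₀).ker := by
      have hinj : Function.Injective ((L₀.subtype.comp (π.subgroupMap L₀).ker.subtype).codRestrict
          (Subgroup.center G) (fun x => by
            have h1 : π ((x : L₀) : G) = 1 := congrArg Subtype.val x.2
            exact (QuotientGroup.eq_one_iff _).mp h1)) := by
        intro x y h
        have h2 := congrArg (fun z : Subgroup.center G => (z : G)) h
        exact Subtype.ext (Subtype.ext h2)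
      exact Group.isSolvable_of_isSolvable_injective hinj
    exact Group.isSolvable_of_ker_le_range (π.subgroupMap L₀).ker.subtype (π.subgroupMap L₀)
      (by rw [Subgroup.range_subtype])
  · refine ⟨P.mapSurjective hsur, ?_, ?_⟩
    · intro hcyc
      apply hc
      have hinj : Function.Injective (π.subgroupMap (P : Subgroup G)) := by
        rw [injective_iff_map_eq_one]
        intro x hx
        have h1 : π (x : G) = 1 := congrArg Subtype.val hx
        have h2 : (x : G) ∈ Subgroup.center G := (QuotientGroup.eq_one_iff _).mp h1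
        obtain ⟨m, hm⟩ := P.isPGroup' x
        have hm' : (x : G) ^ p ^ m = 1 := congrArg Subtype.val hm
        have h8 : orderOf (x : G) ∣ p ^ m := orderOf_dvd_of_pow_eq_one hm'
        have h9 : orderOf (x : G) ∣ Nat.card (Subgroup.center G) := by
          have := orderOf_dvd_natCard (⟨x, h2⟩ : Subgroup.center G)
          rwa [Subgroup.orderOf_mk] at this
        have h10 : Nat.Coprime (p ^ m) (Nat.card (Subgroup.center G)) :=
          Nat.Coprime.pow_left m ((Nat.Prime.coprime_iff_not_dvd hp.out).mpr hP.cop)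
        exact Subtype.ext (orderOf_eq_one_iff.mp (Nat.eq_one_of_dvd_coprimes h10 h8 h9))
      have hcyc' : IsCyclic ((P : Subgroup G).map π) := hcyc
      exact isCyclic_of_injective _ hinj
    · rw [eq_top_iff]
      intro y _
      obtain ⟨g, rfl⟩ := hsur y
      have h1 : g ∈ L₀ ⊔ NN P := by
        rw [hP.sup L₀ hL₀ hL₀c]
        trivial
      have h2 : π g ∈ (L₀ ⊔ NN P).map π := Subgroup.mem_map_of_mem π h1
      rw [Subgroup.map_sup] at h2
      have h3 : (NN P).map π ≤ NN (P.mapSurjective hsur) := by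
        rintro _ ⟨n, hn, rfl⟩
        change π n ∈ Subgroup.normalizer (((P.mapSurjective hsur : Sylow p (G ⧸ Subgroup.center G)) :
          Subgroup (G ⧸ Subgroup.center G)) : Set (G ⧸ Subgroup.center G))
        have hn' : n ∈ Subgroup.normalizer ((P : Subgroup G) : Set G) := hn
        rw [Subgroup.mem_normalizer_iff] at hn' ⊢
        intro z
        change z ∈ (P : Subgroup G).map π ↔ _ ∈ (P : Subgroup G).map π
        constructor
        · rintro ⟨x, hx, rfl⟩
          exact ⟨n * x * n⁻¹, (hn' x).mp hx, by simp⟩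
        · rintro ⟨x, hx, h⟩
          refine ⟨n⁻¹ * x * n, ?_, ?_⟩
          · have := (hn' (n⁻¹ * x * n)).mpr
            apply this
            have e : n * (n⁻¹ * x * n) * n⁻¹ = x := by group
            rw [e]
            exact hx
          · rw [map_mul, map_mul, h, map_inv]
            group
      exact (sup_le_sup_left h3 (L₀.map π) : L₀.map π ⊔ (NN P).map π ≤
        L₀.map π ⊔ NN (P.mapSurjective hsur)) h2

/-- the equality for groups without such sections -/
theorem sec_main (G : Type) [Group G] [Finite G] (hG : Se p G) (P : Sylow p G) :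
    wt (cl p) G = wt (cl p) (NN P) := by
  refine reduction3 (p := p) a_C0 a_CN (cls_Se p) (fun X _ _ hX Q hQ hc => ?_) G hG P
  exfalso
  refine hX (X ⧸ Subgroup.center X) ⊤ ((QuotientGroup.mk' (Subgroup.center X)).comp
    Subgroup.topEquiv.toMonoidHom) ?_ (bad_of_red Q hQ hc)
  exact (QuotientGroup.mk'_surjective _).comp Subgroup.topEquiv.surjective

end

end Pool.Agent.K3h83.IN
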