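import Pool.Agent.K3h83.OP.Sec

/-!
# Subdirect products
-/

set_option autoImplicit false
set_option linter.unusedSectionVars false
set_option linter.style.haveILetI false

open scoped BigOperators Classical

noncomputable section

namespace Pool.Agent.K3h83.IN

variable {p : ℕ} [hp : Fact p.Prime]

/-- a subgroup of prime power order of the image is the image of one -/
theorem exists_lift {H Y : Type} [Group H] [Group Y] [Finite H] {f : H →* Y}
    (hf : Function.Surjective f) {Q : Subgroup Y} (hQ : IsPGroup p Q) :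
    ∃ R : Subgroup H, IsPGroup p R ∧ R.map f = Q := by
  let g : (Q.comap f) →* Q := f.subgroupComap Q
  have hg : Function.Surjective g := by
    rintro ⟨y, hy⟩
    obtain ⟨x, rfl⟩ := hf y
    exact ⟨⟨x, hy⟩, rfl⟩
  obtain ⟨R⟩ : Nonempty (Sylow p (Q.comap f)) := inferInstance
  have hR : (R.mapSurjective hg : Subgroup Q) = ⊤ := by
    have h1 : IsPGroup p (⊤ : Subgroup Q) := hQ.of_equiv Subgroup.topEquiv.symm
    exact ((Sylow.mapSurjective hg R).is_maximal' h1 le_top).symm
  refine ⟨(R : Subgroup (Q.comap f)).map (Q.comap f).subtype, R.isPGroup'.map _, ?_⟩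
  apply le_antisymm
  · rintro _ ⟨_, ⟨x, _, rfl⟩, rfl⟩
    exact x.2
  · intro y hy
    have h2 : (⟨y, hy⟩ : Q) ∈ (R.mapSurjective hg : Subgroup Q) := by
      rw [hR]
      trivial
    obtain ⟨r, hr, h3⟩ := h2
    exact ⟨r, ⟨r, hr, rfl⟩, congrArg Subtype.val h3⟩

/-- a group with normal subgroups `M i` with solvable intersection such that the Sylow `p`-subgroups of
the quotients `G / M i` are cyclic -/
theorem Se_of_sub {G : Type} [Group G] [Finite G] {ι : Type} [Finite ι] (M : ι → Subgroup G)
    [hM : ∀ i, (M i).Normal] (hsol : Group.IsSolvable (⨅ i, M i : Subgroup G))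
    (hcyc : ∀ i, ∀ Q : Sylow p (G ⧸ M i), IsCyclic Q) : Se p G := by
  intro Y _ H f hf hb
  haveI : Finite Y := Finite.of_surjective f hf
  obtain ⟨M₀, hM₀, hmin, ⟨a, ha, b, hb', hab⟩, Q, hQc, -⟩ := hb
  have hnb : ⁅M₀, M₀⁆ ≠ ⊥ := by
    intro h
    apply hab
    have h1 := Subgroup.commutator_eq_bot_iff_le_centralizer.mp h ha
    exact (Subgroup.mem_centralizer_iff.mp h1 b hb').symm
  haveI := hM₀
  have hperf : M₀ ≤ ⁅M₀, M₀⁆ := hmin _ inferInstance hnb
  by_cases h : ∃ i, ((M i).subgroupOf H).map f = ⊥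
  · obtain ⟨i, hi⟩ := h
    apply hQc
    obtain ⟨R, hR, hRQ⟩ := exists_lift hf Q.isPGroup'
    -- the image of `R` in `G / M i` is cyclic
    let g : H →* G ⧸ M i := (QuotientGroup.mk' (M i)).comp H.subtype
    have h1 : IsPGroup p (R.map g) := hR.map _
    obtain ⟨S, hS⟩ := h1.exists_le_sylow
    haveI := hcyc i S
    have h2 : IsCyclic (R.map g) := isCyclic_of_injective _ (Subgroup.inclusion_injective hS)
    obtain ⟨⟨_, ⟨x, hx, rfl⟩⟩, hx2⟩ := h2
    refine ⟨⟨f x, ?_⟩, ?_⟩
    · change f x ∈ (Q : Subgroup Y)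
      rw [← hRQ]
      exact ⟨x, hx, rfl⟩
    · rintro ⟨y, hy⟩
      have hy' : y ∈ (Q : Subgroup Y) := hy
      rw [← hRQ] at hy'
      obtain ⟨r, hr, rfl⟩ := hy'
      obtain ⟨k, hk⟩ := hx2 ⟨g r, ⟨r, hr, rfl⟩⟩
      have hk' : g x ^ k = g r := congrArg Subtype.val hk
      refine ⟨k, Subtype.ext ?_⟩
      change f x ^ k = f r
      have h3 : (x ^ k)⁻¹ * r ∈ (M i).subgroupOf H := by
        rw [Subgroup.mem_subgroupOf, ← QuotientGroup.eq_one_iff]
        change g ((x ^ k)⁻¹ * r) = 1
        rw [map_mul, map_inv, map_zpow, hk', inv_mul_cancel]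
      have h4 : f ((x ^ k)⁻¹ * r) ∈ ((M i).subgroupOf H).map f := ⟨_, h3, rfl⟩
      rw [hi, Subgroup.mem_bot, map_mul, map_inv, map_zpow, inv_mul_eq_one] at h4
      exact h4
  · push Not at h
    haveI := Fintype.ofFinite ι
    have key : ∀ s : Finset ι, M₀ ≤ ((⨅ i ∈ s, M i).subgroupOf H).map f := by
      intro s
      induction s using Finset.induction_on with
      | empty =>
        intro y _
        obtain ⟨x, rfl⟩ := hf y
        exact ⟨x, by simp, rfl⟩
      | insert i s _ ih =>
        have h1 : M₀ ≤ ((M i).subgroupOf H).map f :=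
          hmin _ (Subgroup.Normal.map inferInstance f hf) (h i)
        refine hperf.trans ((Subgroup.commutator_mono h1 ih).trans ?_)
        rw [← Subgroup.map_commutator]
        refine Subgroup.map_mono ?_
        haveI : (⨅ j ∈ s, M j : Subgroup G).Normal := by
          haveI : ∀ j, (⨅ _ : j ∈ s, M j : Subgroup G).Normal := fun j =>
            Subgroup.normal_iInf_normal fun _ => hM j
          exact Subgroup.normal_iInf_normal this
        refine (Subgroup.commutator_le_inf _ _).trans ?_
        intro x hx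
        rw [Subgroup.mem_inf, Subgroup.mem_subgroupOf, Subgroup.mem_subgroupOf] at hx
        rw [Subgroup.mem_subgroupOf, Finset.iInf_insert, Subgroup.mem_inf]
        exact hx
    have h5 : M₀ ≤ ((⨅ i, M i).subgroupOf H).map f := by
      have := key Finset.univ
      simpa using this
    -- so `M₀` is solvable
    haveI := hsol
    haveI hs1 : Group.IsSolvable ((⨅ i, M i).subgroupOf H) := by
      have h1 : Function.Injective ((H.subtype.comp ((⨅ i, M i).subgroupOf H).subtype).codRestrict
          (⨅ i, M i) (fun x => x.2)) := by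
        intro x y h
        have h2 := congrArg (fun z : (⨅ i, M i : Subgroup G) => (z : G)) h
        exact Subtype.ext (Subtype.ext h2)
      exact Group.isSolvable_of_isSolvable_injective h1
    haveI hs2 : Group.IsSolvable (((⨅ i, M i).subgroupOf H).map f) :=
      Group.isSolvable_of_surjective (f := f.subgroupMap ((⨅ i, M i).subgroupOf H))
        (MonoidHom.subgroupMap_surjective _ _)
    haveI hs3 : Group.IsSolvable M₀ :=
      Group.isSolvable_of_isSolvable_injective (Subgroup.inclusion_injective h5)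
    have hne : M₀ ≠ ⊥ := by
      rintro rfl
      rw [Subgroup.mem_bot] at ha hb'
      exact hab (by rw [ha, hb'])
    haveI : Nontrivial M₀ := (Subgroup.nontrivial_iff_ne_bot M₀).mpr hne
    have h6 := Group.IsSolvable.commutator_lt_top_of_nontrivial M₀
    apply h6.ne
    rw [eq_top_iff]
    intro x _
    have h7 := hperf x.2
    rw [← Subgroup.map_subtype_commutator] at h7
    obtain ⟨z, hz, hzx⟩ := h7
    have : z = x := Subtype.ext hzx
    rwa [← this]

end Pool.Agent.K3h83.IN
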